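import Pool.Agent.Lib.MP_c26838_an.Renorm

set_option autoImplicit false

/-!
# The asymptotic sequence algebra of the renormings has stable rank one
-/

namespace Pool.Agent.Lib.MP_c26838_an

open Filter Topology
open scoped ENNReal

set_option linter.unusedSectionVars false

/-- Bounded sequences give elements of `LInf A`. -/
def mkBdd (A : ℕ → UnitalBanachAlgebra) (a : ∀ n, A n) (C : ℝ) (h : ∀ n, ‖a n‖ ≤ C) : LInf A :=
  (⟨a, memℓp_infty ⟨C, by rintro _ ⟨n, rfl⟩; exact h n⟩⟩ : lp (fun n => (A n : Type)) ∞)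

@[simp] theorem mkBdd_term (A : ℕ → UnitalBanachAlgebra) (a : ∀ n, A n) (C : ℝ)
    (h : ∀ n, ‖a n‖ ≤ C) (n : ℕ) : (mkBdd A a C h).term n = a n := rfl

theorem norm_le_of_term_le (A : ℕ → UnitalBanachAlgebra) (a : LInf A) (C : ℝ) (hC : 0 ≤ C)
    (h : ∀ n, ‖a.term n‖ ≤ C) : ‖a‖ ≤ C :=
  lp.norm_le_of_forall_le (f := (show lp (fun n => (A n : Type)) ∞ from a)) hC h

/-- A criterion for stable rank one of the asymptotic sequence algebra. -/
theorem hasStableRankOne_asy_of (A : ℕ → UnitalBanachAlgebra)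
    (h : ∀ (a : LInf A) (ε : ℝ), 0 < ε → ∃ d c : LInf A, ‖d‖ < ε ∧
      Tendsto (fun n => ‖(a.term n + d.term n) * c.term n - 1‖) atTop (𝓝 0) ∧
      Tendsto (fun n => ‖c.term n * (a.term n + d.term n) - 1‖) atTop (𝓝 0)) :
    HasStableRankOne (Asy A) := by
  unfold HasStableRankOne
  rw [Metric.dense_iff]
  intro x ε hε
  obtain ⟨a, rfl⟩ := Ideal.Quotient.mk_surjective (I := c0 A) x
  obtain ⟨d, c, hd, h1, h2⟩ := h a ε hε
  refine ⟨(Ideal.Quotient.mk (c0 A) (a + d) : LInf A ⧸ c0 A), ?_, ?_⟩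
  · rw [Metric.mem_ball, dist_eq_norm]
    have h3 : (Ideal.Quotient.mk (c0 A) (a + d) : LInf A ⧸ c0 A) - Ideal.Quotient.mk (c0 A) a =
        Ideal.Quotient.mk (c0 A) d := by
      rw [map_add, add_sub_cancel_left]
    have h4 : ‖(Ideal.Quotient.mk (c0 A) d : LInf A ⧸ c0 A)‖ ≤ ‖d‖ :=
      Submodule.Quotient.norm_mk_le (S := c0 A) d
    have h5 : ‖(Ideal.Quotient.mk (c0 A) (a + d) : LInf A ⧸ c0 A) -
        Ideal.Quotient.mk (c0 A) a‖ < ε := by
      rw [h3]
      exact h4.trans_lt hd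
    exact h5
  · have e1 : (Ideal.Quotient.mk (c0 A) (a + d) : LInf A ⧸ c0 A) * Ideal.Quotient.mk (c0 A) c
        = 1 := by
      rw [← map_mul, ← map_one (Ideal.Quotient.mk (c0 A)), Ideal.Quotient.eq, mem_c0]
      exact h1
    have e2 : (Ideal.Quotient.mk (c0 A) c : LInf A ⧸ c0 A) * Ideal.Quotient.mk (c0 A) (a + d)
        = 1 := by
      rw [← map_mul, ← map_one (Ideal.Quotient.mk (c0 A)), Ideal.Quotient.eq, mem_c0]
      exact h2
    exact ⟨⟨_, _, e1, e2⟩, rfl⟩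

variable {B : Type} [NormedCommRing B] [NormedAlgebra ℂ B] [NormOneClass B] [CompleteSpace B]

variable (χ : B →ₐ[ℂ] ℂ)

/-- The sequence of renormings of `B` along `χ`. -/
noncomputable def renSeq (n : ℕ) : UnitalBanachAlgebra := ⟨Ren B χ n⟩

theorem hasStableRankOne_asy_ren : HasStableRankOne (Asy (renSeq χ)) := by
  refine hasStableRankOne_asy_of _ ?_
  intro a ε hε
  -- the scalar parts
  let a' : ∀ n, Ren B χ n := fun n => a.term n
  have ha' : ∀ n, ‖a' n‖ ≤ ‖a‖ := fun n => a.norm_term_le n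
  let s : ℕ → ℂ := fun n => χ (toB χ n (a' n))
  let y : ∀ n, Ren B χ n := fun n => a' n - algebraMap ℂ (Ren B χ n) (s n)
  have hy0 : ∀ n, χ (toB χ n (y n)) = 0 := by
    intro n
    simp [y, s]
  have hyn : ∀ n, ‖y n‖ = (n + 1) * ‖toB χ n (y n)‖ := by
    intro n
    rw [norm_ren, hy0]
    simp
  have hy : ∀ n, ‖y n‖ ≤ ‖a‖ := by
    intro n
    refine le_trans ?_ (ha' n)
    rw [hyn, norm_ren (b := a' n)]
    have : toB χ n (y n) = toB χ n (a' n) - algebraMap ℂ B (χ (toB χ n (a' n))) := by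
      simp [y, s]
    rw [this]
    have := norm_nonneg (χ (toB χ n (a' n)))
    linarith
  -- perturbed scalars
  let δ : ℝ := ε / 3
  have hδ : 0 < δ := by positivity
  let t : ℕ → ℂ := fun n => if δ ≤ ‖s n‖ then s n else (δ : ℂ)
  have ht1 : ∀ n, δ ≤ ‖t n‖ := by
    intro n
    by_cases h : δ ≤ ‖s n‖
    · simp [t, h]
    · simp only [t, h, if_false]
      rw [Complex.norm_real, Real.norm_of_nonneg hδ.le]
  have ht0 : ∀ n, t n ≠ 0 := by
    intro n h
    have := ht1 n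
    rw [h, norm_zero] at this
    linarith
  have ht2 : ∀ n, ‖t n - s n‖ ≤ 2 * δ := by
    intro n
    by_cases h : δ ≤ ‖s n‖
    · simp [t, h, hδ.le]
    · simp only [t, h, if_false]
      refine (norm_sub_le _ _).trans ?_
      rw [Complex.norm_real, Real.norm_of_nonneg hδ.le]
      push Not at h
      linarith
  have ht3 : ∀ n, ‖(t n)⁻¹‖ ≤ δ⁻¹ := by
    intro n
    rw [norm_inv]
    exact inv_anti₀ hδ (ht1 n)
  -- the approximant and its approximate inverse
  let d' : ∀ n, Ren B χ n := fun n => algebraMap ℂ (Ren B χ n) (t n - s n)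
  have hd' : ∀ n, ‖d' n‖ ≤ 2 * δ := by
    intro n
    rw [norm_algebraMap']
    exact ht2 n
  let c' : ∀ n, Ren B χ n := fun n =>
    algebraMap ℂ (Ren B χ n) ((t n)⁻¹) - ((t n)⁻¹ ^ 2) • y n
  have hc' : ∀ n, ‖c' n‖ ≤ δ⁻¹ + δ⁻¹ ^ 2 * ‖a‖ := by
    intro n
    refine (norm_sub_le _ _).trans (add_le_add ?_ ?_)
    · rw [norm_algebraMap']
      exact ht3 n
    · refine (norm_smul_le _ _).trans (mul_le_mul ?_ (hy n) (norm_nonneg _) (by positivity))
      rw [norm_pow]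
      exact pow_le_pow_left₀ (norm_nonneg _) (ht3 n) 2
  have hval : ∀ n, (a' n + d' n) * c' n - 1 = - (((t n)⁻¹ ^ 2) • (y n * y n)) := by
    intro n
    have hb : a' n + d' n = algebraMap ℂ _ (t n) + y n := by
      simp only [d', y, map_sub]
      ring
    rw [hb]
    simp only [c']
    simp only [Algebra.smul_def, map_pow]
    have h2 : algebraMap ℂ (Ren B χ n) (t n) * algebraMap ℂ (Ren B χ n) ((t n)⁻¹) = 1 := by
      rw [← map_mul, mul_inv_cancel₀ (ht0 n), map_one]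
    set T := algebraMap ℂ (Ren B χ n) (t n)
    set T' := algebraMap ℂ (Ren B χ n) ((t n)⁻¹)
    have : (T + y n) * (T' - T' ^ 2 * y n) - 1
      = (T * T' - 1) + (y n * T' - T * T' * T' * y n) - T' ^ 2 * (y n * y n) := by ring
    rw [this, h2]
    ring
  have hyy : ∀ n, ‖y n * y n‖ ≤ ‖a‖ ^ 2 * (1 / ((n : ℝ) + 1)) := by
    intro n
    have hn : (0 : ℝ) < (n : ℝ) + 1 := by positivity
    have h1 : ‖y n * y n‖ = (n + 1) * ‖toB χ n (y n) * toB χ n (y n)‖ := by
      rw [norm_ren, map_mul, map_mul, hy0]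
      simp
    have h2 : ‖toB χ n (y n)‖ = ‖y n‖ / (n + 1) := by
      rw [hyn]
      field_simp
    have h4 : ‖y n‖ ^ 2 ≤ ‖a‖ ^ 2 := pow_le_pow_left₀ (norm_nonneg _) (hy n) 2
    calc ‖y n * y n‖ = (n + 1) * ‖toB χ n (y n) * toB χ n (y n)‖ := h1
      _ ≤ (n + 1) * (‖toB χ n (y n)‖ * ‖toB χ n (y n)‖) :=
          mul_le_mul_of_nonneg_left (norm_mul_le _ _) hn.le
      _ = ‖y n‖ ^ 2 * (1 / ((n : ℝ) + 1)) := by
          rw [h2]
          field_simp
      _ ≤ _ := mul_le_mul_of_nonneg_right h4 (by positivity)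
  have hlim : Tendsto (fun n : ℕ => δ⁻¹ ^ 2 * (‖a‖ ^ 2 * (1 / ((n : ℝ) + 1)))) atTop (𝓝 0) := by
    have := (tendsto_one_div_add_atTop_nhds_zero_nat (𝕜 := ℝ)).const_mul (δ⁻¹ ^ 2 * ‖a‖ ^ 2)
    simpa [mul_assoc] using this
  have hmain : Tendsto (fun n => ‖(a' n + d' n) * c' n - 1‖) atTop (𝓝 0) := by
    refine squeeze_zero (fun n => norm_nonneg _) (fun n => ?_) hlim
    rw [hval, norm_neg]
    refine (norm_smul_le _ _).trans (mul_le_mul ?_ (hyy n) (norm_nonneg _) (by positivity))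
    rw [norm_pow]
    exact pow_le_pow_left₀ (norm_nonneg _) (ht3 n) 2
  refine ⟨mkBdd (renSeq χ) d' (2 * δ) hd', mkBdd (renSeq χ) c' _ hc', ?_, hmain, ?_⟩
  · refine lt_of_le_of_lt (norm_le_of_term_le (renSeq χ) (mkBdd (renSeq χ) d' (2 * δ) hd')
      (2 * δ) (by positivity) hd') ?_
    simp only [δ]
    linarith
  · have h6 : ∀ n, c' n * (a' n + d' n) - 1 = (a' n + d' n) * c' n - 1 := by
      intro n
      rw [mul_comm]
    have h7 : Tendsto (fun n => ‖c' n * (a' n + d' n) - 1‖) atTop (𝓝 0) := by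
      simp only [h6]
      exact hmain
    exact h7

end Pool.Agent.Lib.MP_c26838_an
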