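import Mathlib

set_option autoImplicit false

/-!
# Asymptotic sequence algebras and stable rank one

Definitions used in the statement of the hand-in for `MP_c26838_an`.
-/

namespace Pool.Agent.Lib.MP_c26838_an

open Filter Topology
open scoped ENNReal

/-- A unital complex Banach algebra: a complete normed algebra over the complex numbers with
submultiplicative norm and with `‖1‖ = 1`. -/
structure UnitalBanachAlgebra : Type 1 where
  /-- The underlying type. -/
  carrier : Type
  [normedRing : NormedRing carrier]
  [normedAlgebra : NormedAlgebra ℂ carrier]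
  [normOne : NormOneClass carrier]
  [complete : CompleteSpace carrier]

namespace UnitalBanachAlgebra

instance : CoeSort UnitalBanachAlgebra Type := ⟨UnitalBanachAlgebra.carrier⟩

attribute [instance] UnitalBanachAlgebra.normedRing UnitalBanachAlgebra.normedAlgebra
  UnitalBanachAlgebra.normOne UnitalBanachAlgebra.complete

end UnitalBanachAlgebra

/-- A unital topological ring has stable rank one if its invertible elements are dense. -/
def HasStableRankOne (B : Type) [Ring B] [TopologicalSpace B] : Prop :=
  Dense {b : B | IsUnit b}

variable (A : ℕ → UnitalBanachAlgebra)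

/-- The algebra of bounded sequences `(a n)` with `a n` in `A n`, with pointwise operations and
the supremum norm (Mathlib's `lp` for the exponent `∞`). -/
abbrev LInf : Type := lp (fun n => (A n : Type)) ∞

variable {A} in
/-- The `n`-th term of a bounded sequence. -/
def LInf.term (a : LInf A) (n : ℕ) : A n := a.1 n

variable {A} in
theorem LInf.norm_term_le (a : LInf A) (n : ℕ) : ‖a.term n‖ ≤ ‖a‖ :=
  lp.norm_apply_le_norm ENNReal.top_ne_zero a n

theorem null_zero : Tendsto (fun n => ‖(0 : LInf A).term n‖) atTop (𝓝 0) := by
  have h : ∀ n, (0 : LInf A).term n = 0 := fun n => rfl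
  simp [h]

variable {A} in
theorem null_add {a b : LInf A} (ha : Tendsto (fun n => ‖a.term n‖) atTop (𝓝 0))
    (hb : Tendsto (fun n => ‖b.term n‖) atTop (𝓝 0)) :
    Tendsto (fun n => ‖(a + b).term n‖) atTop (𝓝 0) :=
  squeeze_zero (fun n => norm_nonneg _) (fun n => norm_add_le (a.term n) (b.term n))
    (by simpa using ha.add hb)

variable {A} in
theorem null_mul_left (a : LInf A) {b : LInf A}
    (hb : Tendsto (fun n => ‖b.term n‖) atTop (𝓝 0)) :
    Tendsto (fun n => ‖(a * b).term n‖) atTop (𝓝 0) := by
  refine squeeze_zero (fun n => norm_nonneg _) (fun n => ?_) (by simpa using hb.const_mul ‖a‖)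
  exact (norm_mul_le (a.term n) (b.term n)).trans
    (mul_le_mul_of_nonneg_right (a.norm_term_le n) (norm_nonneg _))

variable {A} in
theorem null_mul_right {a : LInf A} (b : LInf A)
    (ha : Tendsto (fun n => ‖a.term n‖) atTop (𝓝 0)) :
    Tendsto (fun n => ‖(a * b).term n‖) atTop (𝓝 0) := by
  refine squeeze_zero (fun n => norm_nonneg _) (fun n => ?_) (by simpa using ha.mul_const ‖b‖)
  exact (norm_mul_le (a.term n) (b.term n)).trans
    (mul_le_mul_of_nonneg_left (b.norm_term_le n) (norm_nonneg _))

/-- The two-sided ideal of null sequences inside the algebra of bounded sequences. -/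
def c0 : Ideal (LInf A) where
  carrier := {a | Tendsto (fun n => ‖a.term n‖) atTop (𝓝 0)}
  zero_mem' := null_zero A
  add_mem' := null_add
  smul_mem' := fun a _ hb => null_mul_left a hb

theorem mem_c0 {a : LInf A} : a ∈ c0 A ↔ Tendsto (fun n => ‖a.term n‖) atTop (𝓝 0) := Iff.rfl

instance instTwoSidedC0 : (c0 A).IsTwoSided where
  mul_mem_of_left := fun b ha => null_mul_right b ha

/-- The asymptotic sequence algebra: bounded sequences modulo null sequences, with the quotient
ring structure and the quotient norm (equal to the limsup norm, see `norm_mk_eq_limsup`). -/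
abbrev Asy : Type := LInf A ⧸ c0 A

end Pool.Agent.Lib.MP_c26838_an
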