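import Pool.Agent.Lib.MP_c26838_an.Defs

set_option autoImplicit false

/-!
# The disc algebra does not have stable rank one
-/

namespace Pool.Agent.Lib.MP_c26838_an

open Filter Topology Polynomial

/-- The closed unit disc. -/
abbrev Disc : Type := Metric.closedBall (0 : ℂ) 1

/-- The disc algebra: the closed subalgebra of `C(Disc, ℂ)` generated by the coordinate. -/
noncomputable def discAlg : Subalgebra ℂ C(Disc, ℂ) :=
  (polynomialFunctions (Metric.closedBall (0 : ℂ) 1)).topologicalClosure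

instance instCompleteDiscAlg : CompleteSpace discAlg :=
  (Subalgebra.isClosed_topologicalClosure _).completeSpace_coe

noncomputable instance instNormedCommRingDiscAlg : NormedCommRing discAlg := inferInstance

noncomputable instance instNormedAlgebraDiscAlg : NormedAlgebra ℂ discAlg := inferInstance

instance instNormOneDiscAlg : NormOneClass discAlg where
  norm_one := by
    have : Nonempty Disc := ⟨⟨0, by simp⟩⟩
    exact norm_one (α := C(Disc, ℂ))

/-- The centre of the disc. -/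
def ctr : Disc := ⟨0, by simp⟩

theorem norm_poly_ctr_le (p : ℂ[X]) (C : ℝ) (h : ∀ z : Disc, ‖(z : ℂ)‖ = 1 → ‖p.eval (z : ℂ)‖ ≤ C) :
    ‖p.eval (ctr : ℂ)‖ ≤ C := by
  refine Complex.norm_le_of_forall_mem_frontier_norm_le (f := fun z : ℂ => p.eval z)
    (U := Metric.ball (0 : ℂ) 1) Metric.isBounded_ball ?_ ?_ ?_
  · exact p.differentiable.diffContOnCl
  · intro z hz
    rw [frontier_ball (0 : ℂ) one_ne_zero, mem_sphere_zero_iff_norm] at hz
    exact h ⟨z, by simp [hz]⟩ hz
  · rw [closure_ball (0 : ℂ) one_ne_zero]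
    exact ctr.2

theorem norm_ctr_le (f : C(Disc, ℂ)) (hf : f ∈ discAlg) (C : ℝ)
    (h : ∀ z : Disc, ‖(z : ℂ)‖ = 1 → ‖f z‖ ≤ C) : ‖f ctr‖ ≤ C := by
  refine le_of_forall_pos_le_add ?_
  intro ε hε
  have hf' : f ∈ closure ((polynomialFunctions (Metric.closedBall (0 : ℂ) 1) :
    Subalgebra ℂ C(Disc, ℂ)) : Set C(Disc, ℂ)) := hf
  rw [Metric.mem_closure_iff] at hf'
  obtain ⟨g, hg, hfg⟩ := hf' (ε / 2) (by positivity)
  obtain ⟨p, -, rfl⟩ := hg
  have hpt : ∀ z : Disc, ‖f z - p.eval (z : ℂ)‖ ≤ ε / 2 := by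
    intro z
    have h1 := (ContinuousMap.dist_apply_le_dist (f := f)
      (g := (polynomialFunctions (Metric.closedBall (0 : ℂ) 1)).subtype ⟨_, ⟨p, trivial, rfl⟩⟩) z)
    rw [dist_eq_norm] at h1
    exact h1.trans hfg.le
  have h2 : ‖p.eval (ctr : ℂ)‖ ≤ C + ε / 2 := by
    refine norm_poly_ctr_le p _ ?_
    intro z hz
    have h3 := hpt z
    have h4 := h z hz
    have h5 : p.eval (z : ℂ) = f z - (f z - p.eval (z : ℂ)) := by ring
    rw [h5]
    exact (norm_sub_le _ _).trans (add_le_add h4 h3)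
  have h5 : f ctr = p.eval (ctr : ℂ) + (f ctr - p.eval (ctr : ℂ)) := by ring
  rw [h5]
  refine (norm_add_le _ _).trans ?_
  have := hpt ctr
  linarith

/-- The coordinate function in the disc algebra. -/
noncomputable def coord : discAlg :=
  ⟨⟨fun z : Disc => (z : ℂ), continuous_subtype_val⟩, by
    apply Subalgebra.le_topologicalClosure
    refine ⟨X, trivial, ?_⟩
    ext z
    simp⟩

/-- Evaluation at the centre. -/
noncomputable def evalCtr : discAlg →ₐ[ℂ] ℂ where
  toFun := fun f => f.1 ctr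
  map_one' := rfl
  map_mul' := fun _ _ => rfl
  map_zero' := rfl
  map_add' := fun _ _ => rfl
  commutes' := fun _ => rfl

theorem not_hasStableRankOne_discAlg : ¬ HasStableRankOne discAlg := by
  intro h
  unfold HasStableRankOne at h
  rw [Metric.dense_iff] at h
  obtain ⟨b, hb, hu⟩ := h coord (1 / 3) (by norm_num)
  rw [Metric.mem_ball] at hb
  obtain ⟨u, rfl⟩ := hu
  have hd : ∀ z : Disc, ‖(u : discAlg).1 z - (z : ℂ)‖ ≤ 1 / 3 := by
    intro z
    have h1 := ContinuousMap.dist_apply_le_dist (f := (u : discAlg).1) (g := coord.1) z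
    rw [dist_eq_norm] at h1
    exact h1.trans hb.le
  have hprod : ∀ z : Disc, (u : discAlg).1 z * ((u⁻¹ : discAlgˣ) : discAlg).1 z = 1 := by
    intro z
    have h1 : (u : discAlg) * ((u⁻¹ : discAlgˣ) : discAlg) = 1 := u.mul_inv
    exact congrArg (fun g : discAlg => g.1 z) h1
  have hprodn : ∀ z : Disc, ‖(u : discAlg).1 z‖ * ‖((u⁻¹ : discAlgˣ) : discAlg).1 z‖ = 1 := by
    intro z
    rw [← norm_mul, hprod, norm_one]
  have hinv : ‖((u⁻¹ : discAlgˣ) : discAlg).1 ctr‖ ≤ 3 / 2 := by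
    refine norm_ctr_le _ ((u⁻¹ : discAlgˣ) : discAlg).2 _ ?_
    intro z hz
    have h1 : 2 / 3 ≤ ‖(u : discAlg).1 z‖ := by
      have h2 := hd z
      have h3 : ‖(z : ℂ)‖ ≤ ‖(u : discAlg).1 z‖ + ‖(u : discAlg).1 z - (z : ℂ)‖ := by
        have : (z : ℂ) = (u : discAlg).1 z - ((u : discAlg).1 z - (z : ℂ)) := by ring
        conv_lhs => rw [this]
        exact norm_sub_le _ _
      rw [hz] at h3
      linarith
    have h4 := hprodn z
    have h5 := norm_nonneg (((u⁻¹ : discAlgˣ) : discAlg).1 z)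
    nlinarith
  have h6 := hprodn ctr
  have h7 := hd ctr
  have h8 : ‖(u : discAlg).1 ctr‖ ≤ 1 / 3 := by
    have : ((ctr : Disc) : ℂ) = 0 := rfl
    rwa [this, sub_zero] at h7
  have h9 := norm_nonneg (((u⁻¹ : discAlgˣ) : discAlg).1 ctr)
  have h10 := norm_nonneg ((u : discAlg).1 ctr)
  nlinarith

end Pool.Agent.Lib.MP_c26838_an
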