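import Pool.Agent.Lib.MP_c26838_an.AsyRen

set_option autoImplicit false

namespace Pool.Agent.Lib.MP_c26838_an

/-- General form: every commutative unital Banach algebra with a character can be renormed
so that the asymptotic sequence algebra of the renormings has stable rank one. -/
theorem exists_renormings (B : Type) [NormedCommRing B] [NormedAlgebra ℂ B] [NormOneClass B]
    [CompleteSpace B] (χ : B →ₐ[ℂ] ℂ) :
    ∃ A : ℕ → UnitalBanachAlgebra,
      (∀ n, ∀ a b : A n, a * b = b * a) ∧
      (∀ m n, Nonempty (A m ≃A[ℂ] A n)) ∧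
      HasStableRankOne (Asy A) ∧
      ∀ n, (HasStableRankOne (A n) ↔ HasStableRankOne B) :=
  ⟨renSeq χ, fun n a b => mul_comm (G := Ren B χ n) a b,
    fun m n => ⟨(toBA χ m).trans (toBA χ n).symm⟩,
    hasStableRankOne_asy_ren χ, fun n => hasStableRankOne_ren_iff χ n⟩

end Pool.Agent.Lib.MP_c26838_an
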