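import Pool.Agent.Lib.MP_c26838_an.Defs

set_option autoImplicit false

/-!
# Renormings of a Banach algebra along a character

For a unital Banach algebra `B` and a character `χ` we consider the norms
`‖b‖ₙ = ‖χ b‖ + (n + 1) * ‖b - χ b • 1‖`.
-/

namespace Pool.Agent.Lib.MP_c26838_an

open Filter Topology
open scoped ENNReal

variable {B : Type} [NormedCommRing B] [NormedAlgebra ℂ B] [NormOneClass B]

/-- The type synonym carrying the `n`-th renorming of `B` along the character `χ`. -/
def Ren (B : Type) [NormedCommRing B] [NormedAlgebra ℂ B] (_ : B →ₐ[ℂ] ℂ) (_ : ℕ) : Type := B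

set_option linter.unusedSectionVars false

variable (χ : B →ₐ[ℂ] ℂ) (n : ℕ)

instance : CommRing (Ren B χ n) := inferInstanceAs (CommRing B)

instance instAlgRen : Algebra ℂ (Ren B χ n) := inferInstanceAs (Algebra ℂ B)

/-- The identity map from the renormed algebra to `B`. -/
def toB : Ren B χ n ≃ₐ[ℂ] B := AlgEquiv.refl

/-- The `n`-th norm. -/
noncomputable def renNorm : RingNorm (Ren B χ n) where
  toFun b := ‖χ (toB χ n b)‖ + (n + 1) * ‖toB χ n b - algebraMap ℂ B (χ (toB χ n b))‖
  map_zero' := by simp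
  add_le' := by
    intro a b
    have h1 : ‖χ (toB χ n a) + χ (toB χ n b)‖ ≤ ‖χ (toB χ n a)‖ + ‖χ (toB χ n b)‖ :=
      norm_add_le _ _
    have h2 : ‖(toB χ n a + toB χ n b) - (algebraMap ℂ B (χ (toB χ n a)) +
        algebraMap ℂ B (χ (toB χ n b)))‖ ≤
        ‖toB χ n a - algebraMap ℂ B (χ (toB χ n a))‖ +
        ‖toB χ n b - algebraMap ℂ B (χ (toB χ n b))‖ := by
      rw [add_sub_add_comm]
      exact norm_add_le _ _
    simp only [map_add]
    have h3 : (0 : ℝ) ≤ (n : ℝ) + 1 := by positivity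
    nlinarith [mul_le_mul_of_nonneg_left h2 h3]
  neg' := by
    intro a
    simp only [map_neg, norm_neg]
    rw [show -(toB χ n a) - -(algebraMap ℂ B (χ (toB χ n a)))
      = -(toB χ n a - algebraMap ℂ B (χ (toB χ n a))) by ring, norm_neg]
  mul_le' := by
    intro a b
    set x := toB χ n a
    set y := toB χ n b
    simp only [map_mul]
    have hxy : x * y - algebraMap ℂ B (χ x) * algebraMap ℂ B (χ y) =
        (x - algebraMap ℂ B (χ x)) * (y - algebraMap ℂ B (χ y)) +
        χ x • (y - algebraMap ℂ B (χ y)) + χ y • (x - algebraMap ℂ B (χ x)) := by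
      simp only [Algebra.smul_def]
      ring
    set u := x - algebraMap ℂ B (χ x)
    set v := y - algebraMap ℂ B (χ y)
    have h1 : ‖x * y - algebraMap ℂ B (χ x) * algebraMap ℂ B (χ y)‖ ≤
        ‖u‖ * ‖v‖ + ‖χ x‖ * ‖v‖ + ‖χ y‖ * ‖u‖ := by
      rw [hxy]
      refine (norm_add_le _ _).trans (add_le_add ((norm_add_le _ _).trans
        (add_le_add (norm_mul_le _ _) (norm_smul_le _ _))) (norm_smul_le _ _))
    have h2 : ‖χ x * χ y‖ = ‖χ x‖ * ‖χ y‖ := norm_mul _ _
    have h3 : (0 : ℝ) ≤ n := Nat.cast_nonneg n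
    have h4 : 0 ≤ ‖u‖ * ‖v‖ := by positivity
    rw [h2]
    have h5 := mul_le_mul_of_nonneg_left h1 (by linarith : (0 : ℝ) ≤ (n : ℝ) + 1)
    nlinarith [mul_nonneg h3 h4, mul_nonneg (mul_nonneg h3 h3) h4]
  eq_zero_of_map_eq_zero' := by
    intro a ha
    have h3 : (0 : ℝ) < (n : ℝ) + 1 := by positivity
    have h1 : 0 ≤ ‖χ (toB χ n a)‖ := norm_nonneg _
    have h2 : 0 ≤ (n + 1) * ‖toB χ n a - algebraMap ℂ B (χ (toB χ n a))‖ := by positivity
    have h4 : ‖χ (toB χ n a)‖ = 0 := by linarith
    have h5 : (n + 1) * ‖toB χ n a - algebraMap ℂ B (χ (toB χ n a))‖ = 0 := by linarith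
    have h6 : ‖toB χ n a - algebraMap ℂ B (χ (toB χ n a))‖ = 0 := by
      rcases mul_eq_zero.1 h5 with h | h
      · linarith
      · exact h
    rw [norm_eq_zero] at h4 h6
    rw [h4, map_zero, sub_zero] at h6
    exact (toB χ n).map_eq_zero_iff.1 h6

noncomputable instance : NormedCommRing (Ren B χ n) where
  toNormedRing := (renNorm χ n).toNormedRing
  mul_comm := mul_comm

theorem norm_ren (b : Ren B χ n) :
    ‖b‖ = ‖χ (toB χ n b)‖ + (n + 1) * ‖toB χ n b - algebraMap ℂ B (χ (toB χ n b))‖ := rfl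

instance : NormOneClass (Ren B χ n) where
  norm_one := by
    rw [norm_ren]
    simp

noncomputable instance : NormedAlgebra ℂ (Ren B χ n) where
  norm_smul_le := by
    intro c b
    rw [norm_ren, norm_ren]
    simp only [map_smul, smul_eq_mul, map_mul, norm_mul]
    rw [← Algebra.smul_def, ← smul_sub, norm_smul]
    apply le_of_eq
    ring

/-- A character of a Banach algebra is contractive. -/
theorem norm_char_le [CompleteSpace B] (χ : B →ₐ[ℂ] ℂ) (b : B) : ‖χ b‖ ≤ ‖b‖ := by
  have := AlgHom.norm_apply_le_self (F := B →ₐ[ℂ] ℂ) χ b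
  exact this

theorem norm_toB_le (b : Ren B χ n) : ‖toB χ n b‖ ≤ ‖b‖ := by
  rw [norm_ren]
  have h1 : toB χ n b = (toB χ n b - algebraMap ℂ B (χ (toB χ n b))) +
      algebraMap ℂ B (χ (toB χ n b)) := by ring
  have h2 : ‖toB χ n b‖ ≤ ‖toB χ n b - algebraMap ℂ B (χ (toB χ n b))‖ +
      ‖χ (toB χ n b)‖ := by
    conv_lhs => rw [h1]
    refine (norm_add_le _ _).trans ?_
    rw [norm_algebraMap']
  have h3 : (0 : ℝ) ≤ n * ‖toB χ n b - algebraMap ℂ B (χ (toB χ n b))‖ := by positivity
  linarith

theorem norm_le_toB [CompleteSpace B] (b : Ren B χ n) :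
    ‖b‖ ≤ (1 + (n + 1) * 2) * ‖toB χ n b‖ := by
  rw [norm_ren]
  have h0 := norm_char_le χ (toB χ n b)
  have h1 : ‖toB χ n b - algebraMap ℂ B (χ (toB χ n b))‖ ≤ 2 * ‖toB χ n b‖ := by
    refine (norm_sub_le _ _).trans ?_
    rw [norm_algebraMap']
    linarith
  have h3 : (0 : ℝ) ≤ (n : ℝ) + 1 := by positivity
  nlinarith [mul_le_mul_of_nonneg_left h1 h3]

/-- The identity map as a continuous linear equivalence. -/
noncomputable def toBL [CompleteSpace B] : Ren B χ n ≃L[ℂ] B :=
  { (toB χ n).toLinearEquiv with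
    continuous_toFun := by
      refine (AddMonoidHomClass.continuous_of_bound ((toB χ n).toLinearEquiv) 1 ?_)
      intro x
      simpa using norm_toB_le χ n x
    continuous_invFun := by
      refine (AddMonoidHomClass.continuous_of_bound ((toB χ n).toLinearEquiv.symm)
        (1 + (n + 1) * 2) ?_)
      intro x
      have := norm_le_toB χ n ((toB χ n).symm x)
      simpa using this }

@[simp] theorem toBL_apply [CompleteSpace B] (b : Ren B χ n) : toBL χ n b = toB χ n b := rfl

instance [CompleteSpace B] : CompleteSpace (Ren B χ n) :=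
  (completeSpace_congr (e := (toBL χ n).toEquiv) (toBL χ n).isUniformEmbedding).2 inferInstance

theorem isUnit_toB_iff (b : Ren B χ n) : IsUnit (toB χ n b) ↔ IsUnit b :=
  MulEquiv.isUnit_map (toB χ n)

/-- The renormed algebra has stable rank one iff the original algebra has. -/
theorem hasStableRankOne_ren_iff [CompleteSpace B] :
    HasStableRankOne (Ren B χ n) ↔ HasStableRankOne B := by
  unfold HasStableRankOne
  have h : {b : Ren B χ n | IsUnit b} = (toBL χ n).toHomeomorph ⁻¹' {b : B | IsUnit b} := by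
    ext b
    exact (isUnit_toB_iff χ n b).symm
  rw [h]
  constructor
  · intro hd
    have := (toBL χ n).toHomeomorph.surjective.denseRange.dense_image
      (toBL χ n).toHomeomorph.continuous hd
    rwa [Set.image_preimage_eq _ (toBL χ n).toHomeomorph.surjective] at this
  · intro hd
    exact hd.preimage (toBL χ n).toHomeomorph.isOpenMap

/-- The identity map as an isomorphism of topological algebras. -/
noncomputable def toBA [CompleteSpace B] : Ren B χ n ≃A[ℂ] B :=
  { toB χ n with
    continuous_toFun := (toBL χ n).continuous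
    continuous_invFun := (toBL χ n).symm.continuous }

end Pool.Agent.Lib.MP_c26838_an
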