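import Pool.Agent.Lib.MP_c26838_an.Defs

set_option autoImplicit false

/-!
# Sanity check: the quotient norm on the asymptotic sequence algebra is the limsup norm
-/

namespace Pool.Agent.Lib.MP_c26838_an

open Filter Topology
open scoped ENNReal

variable (A : ℕ → UnitalBanachAlgebra)

theorem bddUnder (a : LInf A) : atTop.IsBoundedUnder (· ≤ ·) (fun n => ‖a.term n‖) :=
  isBoundedUnder_of ⟨‖a‖, fun n => a.norm_term_le n⟩

theorem coboundUnder (a : LInf A) : atTop.IsCoboundedUnder (· ≤ ·) (fun n => ‖a.term n‖) :=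
  (isBoundedUnder_of ⟨0, fun n => norm_nonneg (a.term n)⟩ :
    atTop.IsBoundedUnder (· ≥ ·) (fun n => ‖a.term n‖)).isCoboundedUnder_le

/-- The quotient norm is the limsup norm. -/
theorem norm_mk_eq_limsup (a : LInf A) :
    ‖(show Asy A from Ideal.Quotient.mk (c0 A) a)‖ = limsup (fun n => ‖a.term n‖) atTop := by
  change ‖(Ideal.Quotient.mk (c0 A) a : LInf A ⧸ c0 A)‖ = _
  apply le_antisymm
  · refine le_of_forall_pos_le_add ?_
    intro ε hε
    have h1 : ∀ᶠ n in atTop, ‖a.term n‖ < limsup (fun n => ‖a.term n‖) atTop + ε :=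
      eventually_lt_of_limsup_lt (by linarith) (bddUnder A a)
    obtain ⟨N, hN⟩ := eventually_atTop.1 h1
    let c : LInf A := (⟨fun n => if n < N then a.term n else 0, memℓp_infty ⟨‖a‖, by
      rintro _ ⟨n, rfl⟩
      by_cases h : n < N
      · simp only [h, if_true]
        exact a.norm_term_le n
      · simp only [h, if_false, norm_zero]
        exact norm_nonneg _⟩⟩ : lp (fun n => (A n : Type)) ∞)
    have hct : ∀ n, c.term n = if n < N then a.term n else 0 := fun n => rfl
    have hc : c ∈ c0 A := by
      rw [mem_c0]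
      refine tendsto_const_nhds.congr' ?_
      filter_upwards [eventually_ge_atTop N] with n hn
      have : ¬ n < N := not_lt.2 hn
      simp [hct, this]
    have h2 : (Ideal.Quotient.mk (c0 A) a : LInf A ⧸ c0 A) =
        Ideal.Quotient.mk (c0 A) (a - c) := by
      rw [Ideal.Quotient.eq]
      simpa using hc
    rw [h2]
    refine (Submodule.Quotient.norm_mk_le (S := c0 A) (a - c)).trans ?_
    have h0 : 0 ≤ limsup (fun n => ‖a.term n‖) atTop :=
      le_limsup_of_frequently_le (Frequently.of_forall fun n => norm_nonneg _) (bddUnder A a)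
    refine lp.norm_le_of_forall_le (f := (show lp (fun n => (A n : Type)) ∞ from (a - c)))
      (by positivity) ?_
    intro n
    have h3 : (a - c).term n = a.term n - c.term n := rfl
    have h4 : ‖(a - c).term n‖ ≤ limsup (fun n => ‖a.term n‖) atTop + ε := by
      by_cases h : n < N
      · rw [h3, hct, if_pos h, sub_self, norm_zero]
        positivity
      · rw [h3, hct, if_neg h, sub_zero]
        exact (hN n (not_lt.1 h)).le
    exact h4
  · refine le_of_forall_pos_le_add ?_
    intro ε hε
    obtain ⟨b, hb, hbn⟩ := Submodule.Quotient.norm_mk_lt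
      (S := c0 A) (Ideal.Quotient.mk (c0 A) a : LInf A ⧸ c0 A) hε
    have h1 : b - a ∈ c0 A := (Ideal.Quotient.eq).1 hb
    rw [mem_c0] at h1
    refine le_trans ?_ hbn.le
    have h2 : Tendsto (fun n => ‖b‖ + ‖(b - a).term n‖) atTop (𝓝 (‖b‖ + 0)) := h1.const_add _
    have h3 : limsup (fun n => ‖a.term n‖) atTop ≤
        limsup (fun n => ‖b‖ + ‖(b - a).term n‖) atTop := by
      refine limsup_le_limsup (Eventually.of_forall fun n => ?_) (coboundUnder A a)
        h2.isBoundedUnder_le
      have h4 : (b - a).term n = b.term n - a.term n := rfl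
      have h5 : a.term n = b.term n - (b - a).term n := by
        rw [h4]
        abel
      simp only
      conv_lhs => rw [h5]
      refine (norm_sub_le _ _).trans ?_
      have := b.norm_term_le n
      linarith
    rw [h2.limsup_eq, add_zero] at h3
    exact h3

/-- The ideal of null sequences is closed. -/
theorem isClosed_c0 : IsClosed (c0 A : Set (LInf A)) := by
  rw [← isSeqClosed_iff_isClosed]
  intro x a hx hxa
  change Tendsto (fun n => ‖a.term n‖) atTop (𝓝 0)
  rw [Metric.tendsto_atTop]
  intro ε hε
  rw [Metric.tendsto_atTop] at hxa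
  obtain ⟨k, hk⟩ := hxa (ε / 2) (by positivity)
  have h1 : Tendsto (fun n => ‖(x k).term n‖) atTop (𝓝 0) := hx k
  rw [Metric.tendsto_atTop] at h1
  obtain ⟨N, hN⟩ := h1 (ε / 2) (by positivity)
  refine ⟨N, fun n hn => ?_⟩
  have h2 := hN n hn
  have h3 := hk k le_rfl
  rw [dist_eq_norm] at h3
  have h4 : ‖(x k - a).term n‖ ≤ ‖x k - a‖ := (x k - a).norm_term_le n
  have h5 : (x k - a).term n = (x k).term n - a.term n := rfl
  have h6 : ‖a.term n‖ ≤ ‖(x k).term n‖ + ‖(x k - a).term n‖ := by
    have : a.term n = (x k).term n - (x k - a).term n := by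
      rw [h5]
      abel
    conv_lhs => rw [this]
    exact norm_sub_le _ _
  simp only [dist_zero_right, norm_norm] at h2 ⊢
  linarith

end Pool.Agent.Lib.MP_c26838_an
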